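import Pool.Agent.R436.EC.Top
import Pool.Agent.R436.EC.Lim
import Pool.Agent.R436.EC.Cont
import Pool.Agent.R436.EC.Asy
import Pool.Agent.R436.EC.Main
import Pool.Agent.R436.EC.UnfAll
import Pool.Agent.R436.EC.AnaG
import Pool.Agent.R436.EC.Ana
import Pool.Agent.R436.EC.Dec

/-! Eisenstein series on hyperbolic cylinders with infinitely many compact nodal domains. -/

namespace Pool.Agent.Results.MP_a92104_an.EisensteinCylinders

open Pool.Agent.R436.EC

/-- First three parts: for `Re s > 0` the function `RX ℓ s` is the kernel of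
`(Δ - s (1 - s))⁻¹` on the hyperbolic cylinder of length `ℓ`: the integral of
`RX ℓ s z w (Δ - s (1 - s)) φ (w)` over the cylinder is `φ z` for all compactly supported `C²`
functions `φ` on the cylinder, `RX` is holomorphic in `s` outside of the diagonal, and
`RX ℓ s z w` decays like `exp (- Re s * |r'|)`, `w = (r', t')`.
Fourth part: for every `ℓ > 0` there is `lam0 > 0` such that for `0 < lam ≤ lam0` and every point
`ξ` at infinity of a funnel of the hyperbolic cylinder of length `ℓ` the Eisenstein series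
`E = E_{1/2 + i lam} (·, ξ)` exists, is continuous, its real part has infinitely many nodal
domains with compact closure, and every compact set fails to contain some compact connected
component of the nodal set of its real part. -/
theorem result :
    (∀ ℓ : ℝ, 0 < ℓ → ∀ s : ℂ, 0 < s.re → ∀ φ : ℝ × ℝ → ℂ, ContDiff ℝ 2 φ →
      (∀ r t : ℝ, φ (r, t + ℓ) = φ (r, t)) → (∃ R : ℝ, ∀ r t : ℝ, R < |r| → φ (r, t) = 0) →
      ∀ r t : ℝ, ∫ r' : ℝ, ∫ t' in (0 : ℝ)..ℓ,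
        RX ℓ s r t r' t' * Lop s φ (r', t') * ((Real.cosh r' : ℝ) : ℂ) = φ (r, t)) ∧
    (∀ ℓ : ℝ, 0 < ℓ → ∀ r t r' t' : ℝ, (∀ k : ℤ, (r, t) ≠ (r', t' + (k : ℝ) * ℓ)) →
      DifferentiableOn ℂ (fun s : ℂ => RX ℓ s r t r' t') {s : ℂ | 0 < s.re}) ∧
    (∀ ℓ : ℝ, 0 < ℓ → ∀ s : ℂ, 0 < s.re → ∀ r t : ℝ, ∃ C R : ℝ,
      ∀ r' t' : ℝ, R ≤ |r'| → ‖RX ℓ s r t r' t'‖ ≤ C * Real.exp (-(s.re * |r'|))) ∧
    ∀ ℓ : ℝ, 0 < ℓ → ∃ lam0 : ℝ, 0 < lam0 ∧ ∀ lam : ℝ, 0 < lam → lam ≤ lam0 →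
      ∀ ξ : ℝ, ∃ E : ℝ × AddCircle ℓ → ℂ, IsEis ℓ (1 / 2 + (lam : ℂ) * Complex.I) ξ E ∧
        Continuous E ∧
        {D : Set (ℝ × AddCircle ℓ) |
          NodalDomain (fun z => (E z).re) D ∧ IsCompact (closure D)}.Infinite ∧
        ∀ K : Set (ℝ × AddCircle ℓ), IsCompact K →
          ∃ C, NodalComp (fun z => (E z).re) C ∧ IsCompact C ∧ ¬ C ⊆ K :=
  ⟨unf_all, ana anag cdl, dec, main top lim cont asy⟩

end Pool.Agent.Results.MP_a92104_an.EisensteinCylinders
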